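import Mathlib
import Pool.Agent.Lib.MP_5d7aef_co.Comb
import Pool.Agent.Lib.MP_5d7aef_co.Planar
import Pool.Agent.Lib.MP_5d7aef_co.Geo
import Pool.Agent.Lib.MP_5d7aef_co.BlowUp

/-! MP_5d7aef_co, Q1: the Bukh-Matousek-Nivasch conjecture on deep flats is false; it already
fails for lines in `ℝ^4`, by a positive proportion of the points. -/

namespace Pool.Agent.Results.MP_5d7aef_co.LinesInR4

/-- `L` is a `k`-flat of `ℝ^d`: a nonempty affine subspace whose direction has dimension `k`. -/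
def IsFlat {d : ℕ} (k : ℕ) (L : AffineSubspace ℝ (EuclideanSpace ℝ (Fin d))) : Prop :=
  (L : Set (EuclideanSpace ℝ (Fin d))).Nonempty ∧ Module.finrank ℝ L.direction = k

/-- `H` is a closed half-space `{x : ⟨a, x⟩ ≤ b}` with `a ≠ 0`. -/
def IsClosedHalfSpace {d : ℕ} (H : Set (EuclideanSpace ℝ (Fin d))) : Prop :=
  ∃ (a : EuclideanSpace ℝ (Fin d)) (b : ℝ), a ≠ 0 ∧ H = {x | inner ℝ a x ≤ b}

/-- The depth of `L` with respect to `X`: the least number of points of `X` in a closed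
half-space containing `L`. -/
noncomputable def depth {d : ℕ} (X : Finset (EuclideanSpace ℝ (Fin d)))
    (L : AffineSubspace ℝ (EuclideanSpace ℝ (Fin d))) : ℕ :=
  sInf {n : ℕ | ∃ H : Set (EuclideanSpace ℝ (Fin d)), IsClosedHalfSpace H ∧
    (L : Set (EuclideanSpace ℝ (Fin d))) ⊆ H ∧
    n = ((X : Set (EuclideanSpace ℝ (Fin d))) ∩ H).ncard}

/-- The finite set `X ⊂ ℝ^d` violates the conjecture of Q1 for `k`, with gap `δ`: every `k`-flat
`L` lies in a closed half-space containing fewer than `((k+1)/(d+k+1) - δ)|X|` points of `X`; in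
other words its depth is below `((k+1)/(d+k+1) - δ)|X|`. With `δ = 0` this is literally the
negated form of Q1 for `X`. -/
def Violates (d k : ℕ) (δ : ℝ) (X : Finset (EuclideanSpace ℝ (Fin d))) : Prop :=
  ∀ L : AffineSubspace ℝ (EuclideanSpace ℝ (Fin d)), IsFlat k L →
    (∃ H : Set (EuclideanSpace ℝ (Fin d)), IsClosedHalfSpace H ∧
      (L : Set (EuclideanSpace ℝ (Fin d))) ⊆ H ∧
      (((X : Set (EuclideanSpace ℝ (Fin d))) ∩ H).ncard : ℝ) <
        (((k : ℝ) + 1) / ((d : ℝ) + (k : ℝ) + 1) - δ) * (X.card : ℝ)) ∧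
    (depth X L : ℝ) < (((k : ℝ) + 1) / ((d : ℝ) + (k : ℝ) + 1) - δ) * (X.card : ℝ)

/-- A criterion: half-spaces in coordinates. -/
theorem violates_of {X : Finset (EuclideanSpace ℝ (Fin 4))} {δ : ℝ}
    (h : ∀ L : AffineSubspace ℝ (EuclideanSpace ℝ (Fin 4)), IsFlat 1 L →
      ∃ (a : EuclideanSpace ℝ (Fin 4)) (b : ℝ), a ≠ 0 ∧ (∀ x ∈ L, inner ℝ a x ≤ b) ∧
        ((X.filter (fun x => inner ℝ a x ≤ b)).card : ℝ) < (1 / 3 - δ) * (X.card : ℝ)) :
    Violates 4 1 δ X := by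
  classical
  intro L hflat
  obtain ⟨a, b, ha, hsub, hlt⟩ := h L hflat
  have hH : IsClosedHalfSpace {x : EuclideanSpace ℝ (Fin 4) | inner ℝ a x ≤ b} := ⟨a, b, ha, rfl⟩
  have hsub' : (L : Set (EuclideanSpace ℝ (Fin 4))) ⊆ {x | inner ℝ a x ≤ b} :=
    fun x hx => hsub x hx
  have hcard : ((X : Set (EuclideanSpace ℝ (Fin 4))) ∩ {x | inner ℝ a x ≤ b}).ncard =
      (X.filter (fun x => inner ℝ a x ≤ b)).card := by
    rw [← Set.ncard_coe_finset, Finset.coe_filter]
    rfl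
  have hval : (((1 : ℕ) : ℝ) + 1) / (((4 : ℕ) : ℝ) + ((1 : ℕ) : ℝ) + 1) = 1 / 3 := by
    push_cast; norm_num
  have hlt' : (((X : Set (EuclideanSpace ℝ (Fin 4))) ∩ {x | inner ℝ a x ≤ b}).ncard : ℝ) <
      ((((1 : ℕ) : ℝ) + 1) / (((4 : ℕ) : ℝ) + ((1 : ℕ) : ℝ) + 1) - δ) * (X.card : ℝ) := by
    rw [hcard, hval]
    exact hlt
  refine ⟨⟨_, hH, hsub', hlt'⟩, lt_of_le_of_lt ?_ hlt'⟩
  have : depth X L ≤ ((X : Set (EuclideanSpace ℝ (Fin 4))) ∩ {x | inner ℝ a x ≤ b}).ncard :=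
    Nat.sInf_le ⟨_, hH, hsub', rfl⟩
  exact_mod_cast this

/-- The basic examples. -/
theorem basic (m : ℕ) (hm : 100000 ≤ m) :
    ∃ X : Finset (EuclideanSpace ℝ (Fin 4)), X.card = 24 * m ∧
      ∀ L : AffineSubspace ℝ (EuclideanSpace ℝ (Fin 4)), IsFlat 1 L →
        ∃ (a : EuclideanSpace ℝ (Fin 4)) (β : ℝ), a ≠ 0 ∧ (∀ x ∈ L, inner ℝ a x ≤ β) ∧
          3 * (X.filter (fun x => inner ℝ a x ≤ β)).card < X.card := by
  obtain ⟨X, hX, hL⟩ := DeepFlat.geo m (by omega) (fun y t hy ht hD => by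
    obtain ⟨A, s, hc⟩ := DeepFlat.planar m y t (by omega) hy ht hD
    rcases hc with hc | hc | hc
    · exact DeepFlat.comb_K m hm A s hc
    · exact DeepFlat.comb_T0 m hm A s hc
    · exact DeepFlat.comb_Tm m hm A s hc)
  exact ⟨X, hX, fun L hflat => hL L hflat.1 hflat.2⟩

/-- The basic example with `m = 100000`, in terms of points and directions. -/
theorem third : ∃ X : Finset DeepFlat.E4, X.card = 2400000 ∧ DeepFlat.Third X := by
  obtain ⟨X, hX, hL⟩ := basic 100000 le_rfl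
  refine ⟨X, by omega, fun p u hu => ?_⟩
  obtain ⟨a, β, ha, hsub, hc⟩ := hL (AffineSubspace.mk' p (Submodule.span ℝ {u}))
    ⟨⟨p, AffineSubspace.self_mem_mk' p _⟩, by
      rw [AffineSubspace.direction_mk']
      exact finrank_span_singleton hu⟩
  refine ⟨a, β, ha, fun t => hsub _ ?_, hc⟩
  rw [AffineSubspace.mem_mk', vsub_eq_sub, add_sub_cancel_left]
  exact Submodule.smul_mem _ _ (Submodule.mem_span_singleton_self u)

/-- The Bukh-Matousek-Nivasch conjecture (Q1) is false for lines in `ℝ^4`, where it predicts a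
line of depth at least `2|X|/6 = |X|/3`.
(1) For every `m ≥ 100000` there is a set `X` of `24 m` points of `ℝ^4` such that every line has
depth smaller than `|X|/3`.
(2) For every `n ≥ 4 * 10^12` there is a set `X` of `n` points of `ℝ^4` such that every line has
depth smaller than `(1/3 - 1/5000000) n`. -/
theorem result :
    (∀ m : ℕ, 100000 ≤ m →
      ∃ X : Finset (EuclideanSpace ℝ (Fin 4)), X.card = 24 * m ∧ Violates 4 1 0 X) ∧
    (∀ n : ℕ, 4 * 10 ^ 12 ≤ n →
      ∃ X : Finset (EuclideanSpace ℝ (Fin 4)), X.card = n ∧ Violates 4 1 (1 / 5000000) X) := by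
  refine ⟨fun m hm => ?_, fun n hn => ?_⟩
  · obtain ⟨X, hX, hL⟩ := basic m hm
    refine ⟨X, hX, violates_of (fun L hflat => ?_)⟩
    obtain ⟨a, b, ha, hsub, hlt⟩ := hL L hflat
    refine ⟨a, b, ha, hsub, ?_⟩
    have : (3 : ℝ) * ((X.filter (fun x => inner ℝ a x ≤ b)).card : ℝ) < (X.card : ℝ) := by
      exact_mod_cast hlt
    linarith
  · obtain ⟨X, hX, hT⟩ := third
    obtain ⟨Y, hY, hL⟩ := hT.blowup (by omega) n
    refine ⟨Y, hY, violates_of (fun L hflat => ?_)⟩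
    obtain ⟨⟨p, hp⟩, hdim⟩ := hflat
    obtain ⟨u, hu0, hu⟩ := finrank_eq_one_iff'.mp hdim
    have hu0' : (u : EuclideanSpace ℝ (Fin 4)) ≠ 0 := by
      intro h
      exact hu0 (Subtype.ext h)
    obtain ⟨a, ha, hau, c, hc, hcard⟩ := hL p u hu0'
    refine ⟨a, inner ℝ a p, ha, fun x hx => ?_, ?_⟩
    · obtain ⟨t, ht⟩ := hu ⟨x -ᵥ p, AffineSubspace.vsub_mem_direction hx hp⟩
      have ht' : t • (u : EuclideanSpace ℝ (Fin 4)) = x - p := by
        have := congrArg Subtype.val ht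
        simpa using this
      have hx' : x = p + t • (u : EuclideanSpace ℝ (Fin 4)) := by
        rw [ht']; abel
      rw [hx', inner_add_right, inner_smul_right, hau]
      simp
    · have h1 : (n / X.card + 1) * c * 2400000 ≤ (n + 2400000) * 799999 := by
        rw [hX] at hc ⊢
        have hc' : c ≤ 799999 := by omega
        have hd : n / 2400000 * 2400000 ≤ n := Nat.div_mul_le_self n 2400000
        generalize n / 2400000 = q at hd ⊢
        have hd' : q * 2400000 + 2400000 ≤ n + 2400000 := Nat.add_le_add_right hd _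
        have := Nat.mul_le_mul hd' hc'
        calc (q + 1) * c * 2400000 = (q * 2400000 + 2400000) * c := by ring
          _ ≤ (n + 2400000) * 799999 := this
      have h2 : (Y.filter (fun x => inner ℝ a x ≤ (inner ℝ a p : ℝ))).card * 2400000 ≤
          (n + 2400000) * 799999 := le_trans (Nat.mul_le_mul_right _ hcard) h1
      have h3 : ((Y.filter (fun x => inner ℝ a x ≤ (inner ℝ a p : ℝ))).card : ℝ) * 2400000 ≤
          ((n : ℝ) + 2400000) * 799999 := by exact_mod_cast h2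
      have h4 : (4 * 10 ^ 12 : ℝ) ≤ (n : ℝ) := by exact_mod_cast hn
      rw [hY]
      nlinarith

/-- The conjecture of Q1. -/
def DeepFlatConjecture : Prop :=
  ∀ d k : ℕ, 1 ≤ k → k + 3 ≤ d → ∀ X : Finset (EuclideanSpace ℝ (Fin d)),
    ∃ L : AffineSubspace ℝ (EuclideanSpace ℝ (Fin d)), IsFlat k L ∧
      ((k : ℝ) + 1) * (X.card : ℝ) / ((d : ℝ) + (k : ℝ) + 1) ≤ (depth X L : ℝ)

/-- Corollary of `result`: the conjecture of Q1 is false. -/
theorem not_deepFlatConjecture : ¬ DeepFlatConjecture := by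
  intro hconj
  obtain ⟨X, _, hX⟩ := result.1 100000 le_rfl
  obtain ⟨L, hL, hge⟩ := hconj 4 1 le_rfl (by norm_num) X
  have h := (hX L hL).2
  rw [sub_zero, div_mul_eq_mul_div] at h
  exact absurd h (not_lt.mpr hge)

end Pool.Agent.Results.MP_5d7aef_co.LinesInR4
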